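import Pool.Agent.Helper13.MG.Num

/-!
# One sequence of products: the numerical part, with separate bounds
-/

set_option autoImplicit false

namespace Pool.Agent.Helper13.BW

open Pool.Agent.Helper13.MG (log_sep log_nat_le Ld)

/-- The numbers attached to one sequence of products. -/
structure Tower (n g u t m : ℕ → ℕ) (a b x y : ℕ → ℕ) : Prop where
  n0 : n 0 = g 0
  ns : ∀ j, n (j + 1) = n j ^ (m j + 1) * g (j + 1)
  n2 : 2 ≤ n 0
  a0 : a 0 = x 0
  as : ∀ j, a (j + 1) = a j ^ (m j + 1) * x (j + 1)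
  b0 : b 0 = y 0
  bs : ∀ j, b (j + 1) = b j ^ (m j + 1) * y (j + 1)
  hg : ∀ j, 0 < g j ∧ g j ≤ t j
  hx : ∀ j, x j ≤ t j
  hy : ∀ j, y j ≤ t j
  ha : ∀ j, a j ≤ u j
  hb : ∀ j, b j ≤ u j
  hu : ∀ j, 2 ≤ u j
  hm : ∀ j, 8 ^ (j + 1) * u j * t (j + 1) ≤ m j

variable {n g u t m a b x y : ℕ → ℕ}

theorem Tower.n_ge (T : Tower n g u t m a b x y) (j : ℕ) : 2 ≤ n j := by
  induction j with
  | zero => exact T.n2
  | succ j ih =>
    rw [T.ns]
    calc 2 ≤ n j := ih
      _ = n j ^ 1 * 1 := by ring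
      _ ≤ n j ^ (m j + 1) * g (j + 1) :=
        Nat.mul_le_mul (Nat.pow_le_pow_right (by omega) (by omega)) (T.hg _).1

theorem Tower.a_pos (T : Tower n g u t m a b x y) (hx : ∀ j, 0 < x j) (j : ℕ) : 0 < a j := by
  induction j with
  | zero => rw [T.a0]; exact hx 0
  | succ j ih => rw [T.as]; exact Nat.mul_pos (pow_pos ih _) (hx _)

theorem Tower.b_pos (T : Tower n g u t m a b x y) (hy : ∀ j, 0 < y j) (j : ℕ) : 0 < b j := by
  induction j with
  | zero => rw [T.b0]; exact hy 0
  | succ j ih => rw [T.bs]; exact Nat.mul_pos (pow_pos ih _) (hy _)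

theorem Tower.a_zero (T : Tower n g u t m a b x y) {i : ℕ} (hx : x i = 0) (j : ℕ) (hj : i ≤ j) :
    a j = 0 := by
  induction j, hj using Nat.le_induction with
  | base =>
    cases i with
    | zero => rw [T.a0, hx]
    | succ i => rw [T.as, hx, mul_zero]
  | succ j hj ih => rw [T.as, ih, zero_pow (by omega), zero_mul]

theorem Tower.b_zero (T : Tower n g u t m a b x y) {i : ℕ} (hy : y i = 0) (j : ℕ) (hj : i ≤ j) :
    b j = 0 := by
  induction j, hj using Nat.le_induction with
  | base =>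
    cases i with
    | zero => rw [T.b0, hy]
    | succ i => rw [T.bs, hy, mul_zero]
  | succ j hj ih => rw [T.bs, ih, zero_pow (by omega), zero_mul]

theorem Tower.step (T : Tower n g u t m a b x y) (hx : ∀ j, 0 < x j) (hy : ∀ j, 0 < y j) (j : ℕ)
    (h : a j ≠ b j) :
    (1 - (1 / 8 : ℝ) ^ (j + 1)) * ((m j + 1 : ℕ) * Ld a b j) ≤ Ld a b (j + 1) ∧
      Real.log (n (j + 1)) ≤ (1 + (1 / 8 : ℝ) ^ (j + 1)) * ((m j + 1 : ℕ) * Real.log (n j)) ∧
      1 ≤ m j + 1 ∧ 0 < Real.log (n j) := by
  have ha := T.a_pos hx j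
  have hb := T.b_pos hy j
  have hau := T.ha j
  have hbu := T.hb j
  have hn := T.n_ge j
  have hu := T.hu j
  have hg := T.hg (j + 1)
  have hm : 8 ^ (j + 1) * u j * t (j + 1) ≤ m j + 1 := (T.hm j).trans (Nat.le_succ _)
  have hsep := log_sep ha hb hau hbu h
  have hn' : (2 : ℝ) ≤ n j := by exact_mod_cast hn
  have hn0 : (0 : ℝ) < n j := by linarith
  have hu' : (2 : ℝ) ≤ u j := by exact_mod_cast hu
  have hu0 : (0 : ℝ) < u j := by linarith
  have hg' : (1 : ℝ) ≤ g (j + 1) := by exact_mod_cast hg.1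
  have ht' : (g (j + 1) : ℝ) ≤ t (j + 1) := by exact_mod_cast hg.2
  have ht1 : (1 : ℝ) ≤ t (j + 1) := by linarith
  set M : ℕ := m j + 1 with hM
  have hm' : (8 : ℝ) ^ (j + 1) * u j * t (j + 1) ≤ M := by exact_mod_cast hm
  have h8 : (0 : ℝ) < (8 : ℝ) ^ (j + 1) := by positivity
  have h8' : (1 / 8 : ℝ) ^ (j + 1) = ((8 : ℝ) ^ (j + 1))⁻¹ := by
    rw [one_div, inv_pow]
  have hlogn : (1 / 2 : ℝ) ≤ Real.log (n j) := by
    have h1 : Real.log 2 ≤ Real.log (n j) := Real.log_le_log (by norm_num) hn'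
    have h2 := Real.log_two_gt_d9
    linarith
  have hlt : Real.log (t (j + 1)) ≤ t (j + 1) := log_nat_le
  have hlg : Real.log (g (j + 1)) ≤ t (j + 1) := by
    have h1 : Real.log (g (j + 1)) ≤ g (j + 1) := log_nat_le
    linarith
  -- the key inequality
  have hkey : (t (j + 1) : ℝ) ≤ (1 / 8 : ℝ) ^ (j + 1) * (M * (1 / u j)) := by
    rw [h8']
    have : (t (j + 1) : ℝ) = ((8 : ℝ) ^ (j + 1))⁻¹ *
        (((8 : ℝ) ^ (j + 1) * u j * t (j + 1)) * (1 / u j)) := by
      field_simp
    rw [this]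
    gcongr
  have hLs : 1 / (u j : ℝ) ≤ Ld a b j := hsep
  have hm0 : (0 : ℝ) ≤ M := Nat.cast_nonneg _
  have ht0 : (0 : ℝ) ≤ (1 / 8 : ℝ) ^ (j + 1) := by positivity
  refine ⟨?_, ?_, by omega, by linarith⟩
  · have hax := hx (j + 1)
    have hby := hy (j + 1)
    have e1 : Real.log (a (j + 1)) = M * Real.log (a j) + Real.log (x (j + 1)) := by
      rw [T.as]
      push_cast
      rw [Real.log_mul (by positivity) (by exact_mod_cast hax.ne'), Real.log_pow, hM]
    have e2 : Real.log (b (j + 1)) = M * Real.log (b j) + Real.log (y (j + 1)) := by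
      rw [T.bs]
      push_cast
      rw [Real.log_mul (by positivity) (by exact_mod_cast hby.ne'), Real.log_pow, hM]
    have e3 : |Real.log (x (j + 1)) - Real.log (y (j + 1))| ≤ Real.log (t (j + 1)) := by
      have x1 : 0 ≤ Real.log (x (j + 1)) := Real.log_nonneg (by exact_mod_cast hax)
      have y1 : 0 ≤ Real.log (y (j + 1)) := Real.log_nonneg (by exact_mod_cast hby)
      have x2 : Real.log (x (j + 1)) ≤ Real.log (t (j + 1)) :=
        Real.log_le_log (by exact_mod_cast hax) (by exact_mod_cast T.hx (j + 1))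
      have y2 : Real.log (y (j + 1)) ≤ Real.log (t (j + 1)) :=
        Real.log_le_log (by exact_mod_cast hby) (by exact_mod_cast T.hy (j + 1))
      rw [abs_le]
      constructor <;> linarith
    have e4 : M * Ld a b j - |Real.log (x (j + 1)) - Real.log (y (j + 1))| ≤ Ld a b (j + 1) := by
      unfold Ld
      rw [e1, e2]
      have e5 : (M : ℝ) * |Real.log (a j) - Real.log (b j)| =
          |(M : ℝ) * Real.log (a j) + Real.log (x (j + 1)) -
            (M * Real.log (b j) + Real.log (y (j + 1))) -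
            (Real.log (x (j + 1)) - Real.log (y (j + 1)))| := by
        rw [← abs_of_nonneg hm0, ← abs_mul, abs_of_nonneg hm0]
        congr 1
        ring
      rw [e5]
      have := abs_sub ((M : ℝ) * Real.log (a j) + Real.log (x (j + 1)) -
            (M * Real.log (b j) + Real.log (y (j + 1)))) (Real.log (x (j + 1)) - Real.log (y (j + 1)))
      linarith
    have e6 : (1 / 8 : ℝ) ^ (j + 1) * (M * (1 / u j)) ≤ (1 / 8 : ℝ) ^ (j + 1) * (M * Ld a b j) := by
      gcongr
    nlinarith
  · have e1 : Real.log (n (j + 1)) = M * Real.log (n j) + Real.log (g (j + 1)) := by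
      rw [T.ns]
      push_cast
      rw [Real.log_mul (by positivity) (by positivity), Real.log_pow, hM]
    have e2 : 1 / (u j : ℝ) ≤ Real.log (n j) := by
      have : 1 / (u j : ℝ) ≤ 1 / 2 := one_div_le_one_div_of_le (by norm_num) hu'
      linarith
    have e6 : (1 / 8 : ℝ) ^ (j + 1) * (M * (1 / u j)) ≤
        (1 / 8 : ℝ) ^ (j + 1) * (M * Real.log (n j)) := by
      gcongr
    rw [e1]
    nlinarith

/-- A difference in step `i` persists and is at least a fixed power of the order. -/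
theorem Tower.persist (T : Tower n g u t m a b x y) (hx : ∀ j, 0 < x j) (hy : ∀ j, 0 < y j)
    (i : ℕ) (h : a i ≠ b i) :
    ∃ c : ℝ, 0 < c ∧ ∀ j, i ≤ j → a j ≠ b j ∧ 0 < Real.log (n j) ∧
      c * Real.log (n j) ≤ Ld a b j := by
  have h0 := T.step hx hy i h
  have hL0 : 0 < Ld a b i := by
    have h1 := log_sep (T.a_pos hx i) (T.b_pos hy i) (T.ha i) (T.hb i) h
    have h2 : (0 : ℝ) < 1 / u i := by
      have := T.hu i
      have : 0 < u i := by omega
      positivity
    exact lt_of_lt_of_le h2 h1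
  have hn0 := h0.2.2.2
  refine ⟨Ld a b i / (2 * Real.log (n i)), by positivity, ?_⟩
  set c := Ld a b i / (2 * Real.log (n i)) with hc
  have hc0 : 0 < c := by positivity
  -- the stronger induction hypothesis
  have key : ∀ j, i ≤ j → a j ≠ b j ∧ 0 < Real.log (n j) ∧
      c * (1 + (1 / 2 : ℝ) ^ j) * Real.log (n j) ≤ Ld a b j := by
    intro j hj
    induction j, hj using Nat.le_induction with
    | base =>
      refine ⟨h, hn0, ?_⟩
      have e : c * 2 * Real.log (n i) = Ld a b i := by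
        rw [hc]; field_simp
      have e1 : (1 / 2 : ℝ) ^ i ≤ 1 := pow_le_one₀ (by norm_num) (by norm_num)
      rw [← e]
      gcongr
      linarith
    | succ j hj ih =>
      obtain ⟨hne, hlog, hle⟩ := ih
      obtain ⟨s1, s2, s3, s4⟩ := T.step hx hy j hne
      set M : ℕ := m j + 1 with hM
      have hm1 : (1 : ℝ) ≤ M := by exact_mod_cast s3
      have hLpos : 0 < Ld a b (j + 1) := by
        have h1 : (1 / 8 : ℝ) ^ (j + 1) ≤ 1 / 8 := by
          calc (1 / 8 : ℝ) ^ (j + 1) ≤ (1 / 8 : ℝ) ^ 1 :=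
                pow_le_pow_of_le_one (by norm_num) (by norm_num) (by omega)
            _ = 1 / 8 := pow_one _
        have h2 : 0 < Ld a b j := lt_of_lt_of_le (by positivity) hle
        have h3 : 0 < (1 - (1 / 8 : ℝ) ^ (j + 1)) * (M * Ld a b j) := by
          apply mul_pos
          · linarith
          · positivity
        linarith
      have hne' : a (j + 1) ≠ b (j + 1) := by
        intro e
        unfold Ld at hLpos
        rw [e, sub_self, abs_zero] at hLpos
        exact lt_irrefl _ hLpos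
      obtain ⟨-, -, -, t4⟩ := T.step hx hy (j + 1) hne'
      refine ⟨hne', t4, ?_⟩
      -- s = 2^{-(j+1)}
      set s : ℝ := (1 / 2 : ℝ) ^ (j + 1) with hs
      have hs0 : 0 < s := by positivity
      have hs1 : s ≤ 1 / 2 := by
        calc s ≤ (1 / 2 : ℝ) ^ 1 :=
                pow_le_pow_of_le_one (by norm_num) (by norm_num) (by omega)
            _ = 1 / 2 := pow_one _
      have hs8 : (1 / 8 : ℝ) ^ (j + 1) = s ^ 3 := by
        rw [hs, ← pow_mul, mul_comm, pow_mul]
        norm_num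
      have hs2 : (1 / 2 : ℝ) ^ j = 2 * s := by
        rw [hs, pow_succ]
        ring
      rw [hs8] at s1 s2
      rw [hs2] at hle
      have q1 : (1 + s) * (1 + s ^ 3) ≤ (1 + 2 * s) * (1 - s ^ 3) := by
        have : 0 ≤ s * (1 - 2 * s ^ 2 - 3 * s ^ 3) := by
          apply mul_nonneg hs0.le
          nlinarith [mul_pos hs0 hs0, mul_nonneg hs0.le (sub_nonneg.2 hs1),
            mul_nonneg (mul_pos hs0 hs0).le (sub_nonneg.2 hs1)]
        nlinarith
      have h3 : 0 ≤ 1 - s ^ 3 := by
        have : s ^ 3 ≤ 1 := pow_le_one₀ hs0.le (by linarith)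
        linarith
      calc c * (1 + s) * Real.log (n (j + 1))
          ≤ c * (1 + s) * ((1 + s ^ 3) * (M * Real.log (n j))) := by gcongr
        _ = c * ((1 + s) * (1 + s ^ 3)) * (M * Real.log (n j)) := by ring
        _ ≤ c * ((1 + 2 * s) * (1 - s ^ 3)) * (M * Real.log (n j)) := by gcongr
        _ = (1 - s ^ 3) * (M * (c * (1 + 2 * s) * Real.log (n j))) := by ring
        _ ≤ (1 - s ^ 3) * (M * Ld a b j) := by gcongr
        _ ≤ _ := s1
  intro j hj
  obtain ⟨h1, h2, h3⟩ := key j hj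
  refine ⟨h1, h2, le_trans ?_ h3⟩
  have e1 : (0 : ℝ) ≤ (1 / 2 : ℝ) ^ j := by positivity
  gcongr
  nlinarith

/-- If all numbers agree at step `j`, then the factors up to `j` agree. -/
theorem Tower.factors (T : Tower n g u t m a b x y) (hy : ∀ j, 0 < y j) (h : ∀ j, a j = b j)
    (j : ℕ) : x j = y j := by
  cases j with
  | zero => rw [← T.a0, ← T.b0]; exact h 0
  | succ j =>
    have h1 := h (j + 1)
    rw [T.as, T.bs, h j] at h1
    exact Nat.eq_of_mul_eq_mul_left (pow_pos (T.b_pos hy j) _) h1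

/-- For every `ε` the numbers `a j`, `b j` agree up to `n j ^ ε` for infinitely many `j`. -/
def NearI (n a b : ℕ → ℕ) : Prop :=
  ∀ ε : ℝ, 0 < ε → ∀ i : ℕ, ∃ j, i ≤ j ∧ (a j : ℝ) ≤ (n j : ℝ) ^ ε * b j ∧
      (b j : ℝ) ≤ (n j : ℝ) ^ ε * a j

/-- If for every `ε` there are infinitely many `j` with `a j`, `b j` equal up to `n j ^ ε` then
`x j = y j` for all `j`. -/
theorem Tower.main (T : Tower n g u t m a b x y) (hx : ∀ j, 0 < x j) (hy : ∀ j, 0 < y j)
    (h : NearI n a b) (j : ℕ) : x j = y j := by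
  refine T.factors hy (fun i => ?_) j
  by_contra hne
  obtain ⟨c, hc, hp⟩ := T.persist hx hy i hne
  obtain ⟨k, hk, h1, h2⟩ := h (c / 2) (by positivity) i
  obtain ⟨-, hlog, hL⟩ := hp k hk
  have ha : (0 : ℝ) < a k := by exact_mod_cast (T.a_pos hx k)
  have hb : (0 : ℝ) < b k := by exact_mod_cast (T.b_pos hy k)
  have hn : (0 : ℝ) < n k := by
    have := T.n_ge k
    have : 0 < n k := by omega
    exact_mod_cast this
  have k1 : Real.log (a k) ≤ c / 2 * Real.log (n k) + Real.log (b k) := by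
    have := Real.log_le_log ha h1
    rwa [Real.log_mul (by positivity) hb.ne', Real.log_rpow hn] at this
  have k2 : Real.log (b k) ≤ c / 2 * Real.log (n k) + Real.log (a k) := by
    have := Real.log_le_log hb h2
    rwa [Real.log_mul (by positivity) ha.ne', Real.log_rpow hn] at this
  have k3 : Ld a b k ≤ c / 2 * Real.log (n k) := by
    unfold Ld
    rw [abs_le]
    constructor <;> linarith
  nlinarith

/-- If all `x j` are positive, then so are all `y j`. -/
theorem Tower.y_pos (T : Tower n g u t m a b x y) (hx : ∀ j, 0 < x j) (h : NearI n a b) (i : ℕ) :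
    0 < y i := by
  by_contra hne
  have h0 : y i = 0 := by omega
  obtain ⟨k, hk, h1, -⟩ := h 1 one_pos i
  rw [T.b_zero h0 k hk] at h1
  have ha := T.a_pos hx k
  simp at h1
  omega

/-- If all `y j` are positive, then so are all `x j`. -/
theorem Tower.x_pos (T : Tower n g u t m a b x y) (hy : ∀ j, 0 < y j) (h : NearI n a b) (i : ℕ) :
    0 < x i := by
  by_contra hne
  have h0 : x i = 0 := by omega
  obtain ⟨k, hk, -, h1⟩ := h 1 one_pos i
  rw [T.a_zero h0 k hk] at h1
  have hb := T.b_pos hy k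
  simp at h1
  omega

end Pool.Agent.Helper13.BW
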