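import Pool.Graph.R_pool_sql_team_seeded_2aa45f1a.Results.MP_0c8ca5_al.AllScalesOrNone
import Pool.Agent.Helper13.MG.Seq
import Pool.Agent.Helper13.BW.Num

/-!
# Bounds for the numbers of simple modules and weights
-/

set_option autoImplicit false

open scoped Classical

namespace Pool.Agent.Helper13.BW

open Pool.Agent.Q149.WB Pool.Agent.Q149.WC
open Pool.Agent.Y63.NV (IsClassFun IsBlock IsIrrTrace numIrrBlock numWtBlock Reduced IsWt centralValue)
open Pool.Agent.Y63.AWC (pSubgroupSetoid numRegularClasses)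
open Pool.Agent.Helper13.MG (irr_card_le)
open Pool.Agent.Helper884

section

variable {p : ℕ} [hp : Fact p.Prime] {F : Type} [Field F] [IsAlgClosed F] [CharP F p]
  (red : integralClosure ℤ ℂ →+* F)

theorem four_pow (n : ℕ) : 2 ^ n * n ≤ 4 ^ n := by
  have h1 : (4 : ℕ) ^ n = 2 ^ n * 2 ^ n := by rw [← mul_pow]; norm_num
  rw [h1]
  exact Nat.mul_le_mul_left _ Nat.lt_two_pow_self.le

theorem le_four (n : ℕ) : n ≤ 4 ^ n := (Nat.lt_pow_self (by norm_num)).le

include hp in
theorem lst_le {H : Type} [Group H] [Finite H] (z : H → F) : lst z ≤ 4 ^ Nat.card H := by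
  have hfin : Finite {φ : H → F // IsIrrTrace φ} := (Pool.Agent.Y914.NV.irr F H).1.to_subtype
  have h1 : lst z ≤ Nat.card {φ : H → F // IsIrrTrace φ} := by
    refine Nat.card_le_card_of_injective
      (fun φ : {φ : H → F // IsIrrTrace φ ∧ ∃ x, ∑ᶠ g : H, z g * φ (g * x) ≠ 0} =>
        (⟨φ.1, φ.2.1⟩ : {φ : H → F // IsIrrTrace φ})) ?_
    intro φ ψ h
    exact Subtype.ext (congrArg (fun w : {φ : H → F // IsIrrTrace φ} => w.1) h)
  have h2 : Nat.card {φ : H → F // IsIrrTrace φ} = numRegularClasses p H := card_IT p F H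
  have h3 : numRegularClasses p H ≤ Nat.card (ConjClasses H) :=
    Nat.card_le_card_of_injective _ Subtype.val_injective
  have h4 : Nat.card (ConjClasses H) ≤ Nat.card H :=
    Nat.card_le_card_of_surjective _ ConjClasses.mk_surjective
  exact h1.trans (h2.le.trans (h3.trans (h4.trans (le_four _))))

omit [IsAlgClosed F] [CharP F p] hp in
theorem nws_le {H : Type} [Group H] [Finite H] (Q : Subgroup H) (z : H → F) :
    nws red p Q z ≤ Nat.card H := by
  have := Fintype.ofFinite (Subgroup.normalizer (Q : Set H))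
  have h1 : nws red p Q z ≤ Nat.card (IC.Irr (Subgroup.normalizer (Q : Set H))) := by
    refine Nat.card_le_card_of_injective
      (fun χ : {χ : Subgroup.normalizer (Q : Set H) → ℂ //
          IsWt p (Q.subgroupOf (Subgroup.normalizer (Q : Set H))) χ ∧
          centralValue red χ (fun x => z x) ≠ 0} =>
        (⟨χ.1, by exact IC.mem_Irr.2 χ.2.1.irr⟩ : IC.Irr (Subgroup.normalizer (Q : Set H)))) ?_
    intro χ ψ h
    exact Subtype.ext (congrArg (fun w : IC.Irr (Subgroup.normalizer (Q : Set H)) =>
      (w : Subgroup.normalizer (Q : Set H) → ℂ)) h)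
  rw [Nat.card_eq_fintype_card, Fintype.card_coe] at h1
  refine h1.trans ((irr_card_le _).trans ?_)
  rw [← Nat.card_eq_fintype_card]
  exact Subgroup.card_le_card_group _

omit [IsAlgClosed F] [CharP F p] hp in
theorem wst_le {H : Type} [Group H] [Finite H] (z : H → F) :
    wst red p z ≤ 4 ^ Nat.card H := by
  have i0 : Finite (Subgroup H) := inferInstance
  have i1 : Fintype (Quotient (pSubgroupSetoid p H)) := Fintype.ofFinite _
  have h1 : wst red p z = ∑ c : Quotient (pSubgroupSetoid p H), nws red p c.out.1 z :=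
    finsum_eq_sum_of_fintype _
  have h2 : ∑ c : Quotient (pSubgroupSetoid p H), nws red p c.out.1 z ≤
      ∑ _c : Quotient (pSubgroupSetoid p H), Nat.card H :=
    Finset.sum_le_sum fun c _ => nws_le red _ z
  rw [Finset.sum_const, smul_eq_mul, Finset.card_univ] at h2
  have h3 : Fintype.card (Quotient (pSubgroupSetoid p H)) ≤ 2 ^ Nat.card H := by
    rw [← Nat.card_eq_fintype_card]
    have e1 : Nat.card (Quotient (pSubgroupSetoid p H)) ≤
        Nat.card {Q : Subgroup H // IsPGroup p Q} :=
      Nat.card_le_card_of_surjective _ Quotient.mk_surjective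
    have e2 : Nat.card {Q : Subgroup H // IsPGroup p Q} ≤ Nat.card (Subgroup H) :=
      Nat.card_le_card_of_injective _ Subtype.val_injective
    have e3 : Nat.card (Subgroup H) ≤ Nat.card (Set H) :=
      Nat.card_le_card_of_injective _ SetLike.coe_injective
    have e4 : Nat.card (Set H) = 2 ^ Nat.card H := by
      have := Fintype.ofFinite H
      rw [Nat.card_eq_fintype_card, Fintype.card_set, Nat.card_eq_fintype_card]
    exact e1.trans (e2.trans (e3.trans e4.le))
  rw [h1]
  exact h2.trans ((Nat.mul_le_mul_right _ h3).trans (four_pow _))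

end

end Pool.Agent.Helper13.BW
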