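import Pool.Agent.Helper13.BW.Seq

/-!
# Classes of groups, the enumeration, and the zero-one law
-/

set_option autoImplicit false

open scoped Classical

namespace Pool.Agent.Helper13.BW

open Pool.Agent.Q149.WB Pool.Agent.Q149.WC
open Pool.Agent.Y63.NV (IsClassFun IsBlock IsIrrTrace numIrrBlock numWtBlock Reduced IsWt centralValue)
open Pool.Agent.Helper13.MG (FG exists_enum)
open Pool.Agent.Results.MP_0c8ca5_al.AllScalesOrNone (numWeights Red)

theorem reduced_mul {p : ℕ} [hp : Fact p.Prime] {G H : Type} [Group G] [Group H]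
    (h : Reduced p G) (h' : Reduced p H) : Reduced p (G × H) := by
  constructor
  · intro N hN hidx
    have key : ∀ (K : Type) [Group K], Reduced p K → ∀ f : K →* G × H, ∀ a, f a ∈ N := by
      intro K _ hK f a
      have h1 : (N.comap f).index ∣ p := by
        rw [Subgroup.index_comap, ← hidx]
        exact Subgroup.relIndex_dvd_index_of_normal N f.range
      rcases (Nat.dvd_prime hp.out).mp h1 with h2 | h2
      · rw [Subgroup.index_eq_one] at h2
        have : a ∈ N.comap f := h2 ▸ Subgroup.mem_top a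
        exact this
      · exact absurd h2 (hK.perfect _ inferInstance)
    have h3 : N = ⊤ := by
      rw [eq_top_iff]
      rintro ⟨a, b⟩ -
      have h1 := N.mul_mem (key G h (MonoidHom.inl G H) a) (key H h' (MonoidHom.inr G H) b)
      have h2 : MonoidHom.inl G H a * MonoidHom.inr G H b = (a, b) := by
        change (a * 1, 1 * b) = _
        rw [mul_one, one_mul]
      rwa [h2] at h1
    rw [h3, Subgroup.index_top] at hidx
    exact hp.out.one_lt.ne hidx
  · intro M hM hMp
    have h1 : M.map (MonoidHom.fst G H) = ⊥ :=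
      h.radical _ (hM.map _ (fun a => ⟨(a, 1), rfl⟩)) (hMp.map _)
    have h2 : M.map (MonoidHom.snd G H) = ⊥ :=
      h'.radical _ (hM.map _ (fun a => ⟨(1, a), rfl⟩)) (hMp.map _)
    rw [eq_bot_iff]
    rintro ⟨a, b⟩ hx
    have h3 : a ∈ M.map (MonoidHom.fst G H) := ⟨(a, b), hx, rfl⟩
    have h4 : b ∈ M.map (MonoidHom.snd G H) := ⟨(a, b), hx, rfl⟩
    rw [h1, Subgroup.mem_bot] at h3
    rw [h2, Subgroup.mem_bot] at h4
    rw [Subgroup.mem_bot, h3, h4]
    rfl

theorem reduced_cyclic {p q : ℕ} [hp : Fact p.Prime] (hq : q.Prime) (hne : q ≠ p) :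
    Reduced p (Multiplicative (ZMod q)) := by
  have hqf : Fact q.Prime := ⟨hq⟩
  have hc : Nat.card (Multiplicative (ZMod q)) = q := by
    have : Nat.card (Multiplicative (ZMod q)) = Nat.card (ZMod q) := rfl
    rw [this, Nat.card_zmod]
  constructor
  · intro N _ hidx
    have h1 : N.index ∣ q := N.index_dvd_card.trans hc.dvd
    rw [hidx] at h1
    exact hne ((Nat.prime_dvd_prime_iff_eq hp.out hq).1 h1).symm
  · intro M _ hM
    have h1 : Nat.card M ∣ q := M.card_subgroup_dvd_card.trans hc.dvd
    obtain ⟨k, hk⟩ := IsPGroup.iff_card.1 hM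
    rcases (Nat.dvd_prime hq).1 h1 with h2 | h2
    · exact Subgroup.card_eq_one.1 h2
    · exfalso
      rw [h2] at hk
      rcases Nat.eq_zero_or_pos k with h0 | h0
      · rw [h0, pow_zero] at hk
        exact hq.one_lt.ne' hk
      · have h3 : p ∣ q := by
          rw [hk]
          exact dvd_pow_self p h0.ne'
        exact hne ((Nat.prime_dvd_prime_iff_eq hp.out hq).1 h3).symm

/-- A class of groups closed under direct products contains the sequence. -/
theorem class_gam (C : FG → Prop) (hC : ∀ X Y, C X → C Y → C (mulG X Y)) (G : ℕ → FG)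
    (hG : ∀ i, C (G i)) (m : ℕ → ℕ) (j : ℕ) : C (Gam G m j) := by
  have hp : ∀ X, C X → ∀ k, C (powG X k) := by
    intro X hX k
    induction k with
    | zero => exact hX
    | succ k ih => exact hC _ _ ih hX
  induction j with
  | zero => exact hG 0
  | succ j ih => exact hC _ _ (hp _ ih _) (hG _)

/-- The sequence with the smallest exponents. -/
noncomputable def GamE (G : ℕ → FG) : ℕ → FG
  | 0 => G 0
  | j + 1 => mulG (powG (GamE G j)
      (8 ^ (j + 1) * 4 ^ Nat.card (GamE G j).G * 4 ^ Nat.card (G (j + 1)).G)) (G (j + 1))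

theorem exists_m (G : ℕ → FG) : ∃ m : ℕ → ℕ, ∀ j,
    8 ^ (j + 1) * 4 ^ Nat.card (Gam G m j).G * 4 ^ Nat.card (G (j + 1)).G ≤ m j := by
  refine ⟨fun j => 8 ^ (j + 1) * 4 ^ Nat.card (GamE G j).G * 4 ^ Nat.card (G (j + 1)).G, ?_⟩
  have key : ∀ j, Gam G (fun j => 8 ^ (j + 1) * 4 ^ Nat.card (GamE G j).G *
      4 ^ Nat.card (G (j + 1)).G) j = GamE G j := by
    intro j
    induction j with
    | zero => rfl
    | succ j ih =>
      rw [Gam, GamE, ih]
  intro j
  rw [key]

/-- The reduced groups of a class in one sequence. -/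
theorem exists_enum_class {p : ℕ} [Fact p.Prime] (X : ∀ (H : Type) [Group H], Prop)
    (q : ℕ) (hq : q.Prime) (hne : q ≠ p) (hqX : X (Multiplicative (ZMod q))) :
    ∃ G : ℕ → FG, 2 ≤ Nat.card (G 0).G ∧ (∀ i, Red p X (G i).G) ∧
      ∀ (H : Type) [Group H] [Finite H], Red p X H → ∃ i, Nonempty (H ≃* (G i).G) := by
  have hqf : Fact q.Prime := ⟨hq⟩
  obtain ⟨E, hE⟩ := exists_enum
  let C : FG := ⟨Multiplicative (ZMod q)⟩
  have hC : Red p X C.G := ⟨hqX, reduced_cyclic hq hne⟩
  let P : ℕ → Prop := fun i => ∃ K : FG, Red p X K.G ∧ Nonempty (K.G ≃* (E i).G)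
  let G : ℕ → FG := fun i => match i with
    | 0 => C
    | i + 1 => if h : P i then h.choose else C
  refine ⟨G, ?_, ?_, ?_⟩
  · have : Nat.card (G 0).G = Nat.card (ZMod q) := rfl
    rw [this, Nat.card_zmod]
    exact hq.two_le
  · intro i
    cases i with
    | zero => exact hC
    | succ i =>
      change Red p X (if h : P i then h.choose else C).G
      by_cases h : P i
      · rw [dif_pos h]; exact h.choose_spec.1
      · rw [dif_neg h]; exact hC
  · intro H _ _ hH
    obtain ⟨i, ⟨e⟩⟩ := hE H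
    have h : P i := ⟨⟨H⟩, hH, ⟨e⟩⟩
    refine ⟨i + 1, ?_⟩
    change Nonempty (H ≃* (if h : P i then h.choose else C).G)
    rw [dif_pos h]
    obtain ⟨e'⟩ := h.choose_spec.2
    exact ⟨e.trans e'.symm⟩

/-! ### the zero-one law -/

/-- If `x i ≠ y i` for some `i`, then at most `N ^ n` of the vectors `e` of `n + 1` exponents
between `1` and `N` satisfy `∏ x i ^ e i = ∏ y i ^ e i`. -/
theorem zero_one_num {n : ℕ} (N : ℕ) (x y : Fin (n + 1) → ℕ) (hx : ∀ i, 0 < x i)
    (hy : ∀ i, 0 < y i) (i₀ : Fin (n + 1)) (h : x i₀ ≠ y i₀)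
    (E : Set (Fin (n + 1) → Fin N))
    (hE : ∀ e ∈ E, ∏ i, x i ^ ((e i : ℕ) + 1) = ∏ i, y i ^ ((e i : ℕ) + 1)) :
    Nat.card E ≤ N ^ n := by
  have hinj : Function.Injective (fun e : E => i₀.removeNth (α := fun _ => Fin N) e.1) := by
    rintro ⟨e, he⟩ ⟨e', he'⟩ hee
    have hoff : ∀ j, e (i₀.succAbove j) = e' (i₀.succAbove j) := fun j => congrFun hee j
    have h1 := hE e he
    have h2 := hE e' he'
    rw [Fin.prod_univ_succAbove _ i₀, Fin.prod_univ_succAbove _ i₀] at h1 h2
    simp only [hoff] at h1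
    set X := ∏ j, x (i₀.succAbove j) ^ ((e' (i₀.succAbove j) : ℕ) + 1) with hX
    set Y := ∏ j, y (i₀.succAbove j) ^ ((e' (i₀.succAbove j) : ℕ) + 1) with hY
    have hX0 : 0 < X := Finset.prod_pos fun j _ => pow_pos (hx _) _
    have hkey : ∀ u v : ℕ, u < v → x i₀ ^ u * X = y i₀ ^ u * Y → x i₀ ^ v * X = y i₀ ^ v * Y →
        False := by
      intro u v huv k1 k2
      obtain ⟨d, rfl⟩ := Nat.exists_eq_add_of_lt huv
      have k3 : x i₀ ^ (d + 1) * (x i₀ ^ u * X) = y i₀ ^ (d + 1) * (x i₀ ^ u * X) := by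
        have : x i₀ ^ (u + d + 1) * X = x i₀ ^ (d + 1) * (x i₀ ^ u * X) := by ring
        rw [← this, k2, k1]
        ring
      have k4 : 0 < x i₀ ^ u * X := Nat.mul_pos (pow_pos (hx _) _) hX0
      have k5 := Nat.eq_of_mul_eq_mul_right k4 k3
      exact h (Nat.pow_left_injective (by omega) k5)
    have hi0 : e i₀ = e' i₀ := by
      apply Fin.ext
      by_contra hne
      rcases Nat.lt_or_gt_of_ne hne with hlt | hlt
      · exact hkey _ _ (by omega) h1 h2
      · exact hkey _ _ (by omega) h2 h1
    apply Subtype.ext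
    funext i
    rcases eq_or_ne i i₀ with rfl | hi
    · exact hi0
    · obtain ⟨j, rfl⟩ := Fin.exists_succAbove_eq hi
      exact hoff j
  have h1 := Nat.card_le_card_of_injective _ hinj
  have h2 : Nat.card (Fin n → Fin N) = N ^ n := by simp
  exact h1.trans h2.le

section

variable {p : ℕ} [hp : Fact p.Prime] {F : Type} [Field F] [IsAlgClosed F] [CharP F p]
  (red : integralClosure ℤ ℂ →+* F)

/-- If the equality fails for a block of one of `n + 1` groups, then it fails for all but at most
`N ^ n` of the `N ^ (n + 1)` direct products of powers with exponents between `1` and `N`. -/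
theorem zero_one {n : ℕ} (N : ℕ) (G : Fin (n + 1) → FG) (i₀ : Fin (n + 1))
    (h : ¬ Eqw p red (G i₀).G) :
    Nat.card {e : Fin (n + 1) → Fin N // Eqw p red (piG n (fun i => powG (G i) (e i))).G} ≤
      N ^ n := by
  choose x₁ y₁ hx₁ h₁ using fun i => El.one (p := p) red (G i).G
  have prodE : ∀ (x y : Fin (n + 1) → ℕ), (∀ i, El p red (G i).G (x i) (y i)) →
      ∀ e : Fin (n + 1) → Fin N, Eqw p red (piG n (fun i => powG (G i) (e i))).G →
      ∏ i, x i ^ ((e i : ℕ) + 1) = ∏ i, y i ^ ((e i : ℕ) + 1) := by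
    intro x y hxy e he
    exact El.eq red he (El.pi red (fun i => (hxy i).pow red (e i)))
  have empty : (∀ e : Fin (n + 1) → Fin N,
      ¬ Eqw p red (piG n (fun i => powG (G i) (e i))).G) →
      Nat.card {e : Fin (n + 1) → Fin N // Eqw p red (piG n (fun i => powG (G i) (e i))).G} ≤
        N ^ n := by
    intro hn
    have : IsEmpty {e : Fin (n + 1) → Fin N //
        Eqw p red (piG n (fun i => powG (G i) (e i))).G} := ⟨fun e => hn e.1 e.2⟩
    rw [Nat.card_of_isEmpty]
    exact Nat.zero_le _
  by_cases hy₁ : ∀ i, 0 < y₁ i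
  · unfold Eqw at h
    push Not at h
    obtain ⟨B, hB, hne⟩ := h
    have hE := El.of_block red hB
    set l := numIrrBlock B with hl
    set w := numWeights p red B with hw
    let x : Fin (n + 1) → ℕ := fun k => if k = i₀ then l else x₁ k
    let y : Fin (n + 1) → ℕ := fun k => if k = i₀ then w else y₁ k
    have hxy : ∀ k, El p red (G k).G (x k) (y k) := by
      intro k
      by_cases hk : k = i₀
      · subst hk
        simpa [x, y] using hE
      · simpa [x, y, hk] using h₁ k
    have xi : x i₀ = l := by simp [x]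
    have yi : y i₀ = w := by simp [y]
    rcases Nat.eq_zero_or_pos l with hl0 | hl0
    · have hw0 : 0 < w := by omega
      have hy : ∀ k, 0 < y k := by
        intro k
        by_cases hk : k = i₀
        · rw [hk, yi]; exact hw0
        · simpa [y, hk] using hy₁ k
      refine empty fun e he => ?_
      have e1 := prodE x y hxy e he
      have e2 : ∏ i, x i ^ ((e i : ℕ) + 1) = 0 :=
        Finset.prod_eq_zero (Finset.mem_univ i₀) (by rw [xi, hl0, zero_pow (by omega)])
      have e3 : 0 < ∏ i, y i ^ ((e i : ℕ) + 1) := Finset.prod_pos fun i _ => pow_pos (hy i) _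
      omega
    · have hx : ∀ k, 0 < x k := by
        intro k
        by_cases hk : k = i₀
        · rw [hk, xi]; exact hl0
        · simpa [x, hk] using hx₁ k
      rcases Nat.eq_zero_or_pos w with hw0 | hw0
      · refine empty fun e he => ?_
        have e1 := prodE x y hxy e he
        have e2 : ∏ i, y i ^ ((e i : ℕ) + 1) = 0 :=
          Finset.prod_eq_zero (Finset.mem_univ i₀) (by rw [yi, hw0, zero_pow (by omega)])
        have e3 : 0 < ∏ i, x i ^ ((e i : ℕ) + 1) := Finset.prod_pos fun i _ => pow_pos (hx i) _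
        omega
      · have hy : ∀ k, 0 < y k := by
          intro k
          by_cases hk : k = i₀
          · rw [hk, yi]; exact hw0
          · simpa [y, hk] using hy₁ k
        exact zero_one_num N x y hx hy i₀ (by rw [xi, yi]; exact hne)
          {e | Eqw p red (piG n (fun i => powG (G i) (e i))).G} (fun e he => prodE x y hxy e he)
  · push Not at hy₁
    obtain ⟨k, hk⟩ := hy₁
    refine empty fun e he => ?_
    have e1 := prodE x₁ y₁ h₁ e he
    have e2 : ∏ i, y₁ i ^ ((e i : ℕ) + 1) = 0 :=
      Finset.prod_eq_zero (Finset.mem_univ k) (by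
        have : y₁ k = 0 := by omega
        rw [this, zero_pow (by omega)])
    have e3 : 0 < ∏ i, x₁ i ^ ((e i : ℕ) + 1) := Finset.prod_pos fun i _ => pow_pos (hx₁ i) _
    omega

end

end Pool.Agent.Helper13.BW
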