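import Pool.Agent.Helper13.BW.Seq

/-!
# Invariance under isomorphisms
-/

set_option autoImplicit false

open scoped Classical

namespace Pool.Agent.Helper13.BW

open Pool.Agent.Q149.WB Pool.Agent.Q149.WC
open Pool.Agent.Y63.NV (IsClassFun IsBlock IsIrrTrace numIrrBlock numWtBlock Reduced IsWt centralValue)
open Pool.Agent.Y63.NV.B77 (irr_comp')
open Pool.Agent.Y63.AWC (pSubgroupSetoid numRegularClasses normalizer_map)
open Pool.Agent.Results.MP_0c8ca5_al.AllScalesOrNone (numWeights)

section

variable {p : ℕ} [hp : Fact p.Prime] {F : Type} [Field F] [IsAlgClosed F] [CharP F p]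
  (red : integralClosure ℤ ℂ →+* F)

omit [IsAlgClosed F] [CharP F p] hp in
theorem cond_iso {G H : Type} [Group G] [Group H] (e : G ≃* H) (z φ : H → F) :
    (∃ x, ∑ᶠ g : G, z (e g) * φ (e (g * x)) ≠ 0) ↔ ∃ x, ∑ᶠ g : H, z g * φ (g * x) ≠ 0 := by
  constructor
  · rintro ⟨x, hx⟩
    refine ⟨e x, ?_⟩
    rw [← finsum_comp_equiv e.toEquiv]
    have h : ∀ g : G, z (e g) * φ (e (g * x)) = z (e.toEquiv g) * φ (e.toEquiv g * e x) := by
      intro g
      rw [map_mul]
      rfl
    rw [← finsum_congr h]
    exact hx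
  · rintro ⟨x, hx⟩
    refine ⟨e.symm x, ?_⟩
    rw [← finsum_comp_equiv e.toEquiv] at hx
    have h : ∀ g : G, z (e g) * φ (e (g * e.symm x)) = z (e.toEquiv g) * φ (e.toEquiv g * x) := by
      intro g
      rw [map_mul, MulEquiv.apply_symm_apply]
      rfl
    rw [finsum_congr h]
    exact hx

omit [IsAlgClosed F] [CharP F p] hp in
theorem lst_iso {G H : Type} [Group G] [Group H] (e : G ≃* H) (z : H → F) :
    lst (fun x => z (e x)) = lst z := by
  unfold lst
  refine Nat.card_congr
    { toFun := fun φ => ⟨fun x => φ.1 (e.symm x), irr_comp' e.symm φ.2.1, ?_⟩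
      invFun := fun φ => ⟨fun x => φ.1 (e x), irr_comp' e φ.2.1, ?_⟩
      left_inv := fun φ => Subtype.ext (funext fun x => by simp)
      right_inv := fun φ => Subtype.ext (funext fun x => by simp) }
  · have h := φ.2.2
    refine (cond_iso e z (fun x => φ.1 (e.symm x))).1 ?_
    simpa using h
  · exact (cond_iso e z φ.1).2 φ.2.2

theorem nws_iso {G H : Type} [Group G] [Group H] [Finite G] [Finite H] (e : G ≃* H)
    (Q : Subgroup G) {z : H → F} (hz : IsClassFun z) :
    nws red p Q (fun x => z (e x)) = nws red p (Q.map e.toMonoidHom) z := by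
  let e1 : Subgroup.normalizer (Q : Set G) ≃*
      Subgroup.normalizer ((Q.map e.toMonoidHom : Subgroup H) : Set H) :=
    (e.subgroupMap (Subgroup.normalizer (Q : Set G))).trans
      (MulEquiv.subgroupCongr (normalizer_map e Q))
  have he1 : ∀ x, ((e1 x : _) : H) = e x := fun x => rfl
  let N' := Subgroup.normalizer ((Q.map e.toMonoidHom : Subgroup H) : Set H)
  let φ : N' →* N' ⧸ (Q.map e.toMonoidHom).subgroupOf N' := QuotientGroup.mk' _
  have hφ : Function.Surjective φ := QuotientGroup.mk'_surjective _
  let ψ := φ.comp e1.toMonoidHom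
  have hψ : Function.Surjective ψ := hφ.comp e1.surjective
  have hker : ψ.ker = Q.subgroupOf (Subgroup.normalizer (Q : Set G)) := by
    ext x
    rw [MonoidHom.mem_ker, Subgroup.mem_subgroupOf]
    have h1 : ψ x = φ (e1 x) := rfl
    have h2 : φ (e1 x) = 1 ↔ e1 x ∈ (Q.map e.toMonoidHom).subgroupOf N' :=
      QuotientGroup.eq_one_iff _
    rw [h1, h2, Subgroup.mem_subgroupOf, he1]
    constructor
    · rintro ⟨q, hq, hqe⟩
      have : q = x := e.injective hqe
      rwa [← this]
    · intro h
      exact ⟨x, h, rfl⟩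
  have hz' : IsClassFun (fun x => z (e x)) := by
    intro g x
    have := hz (e g) (e x)
    simpa using this
  rw [nws_eq red ψ hψ hker hz', nws_mk red _ hz]
  congr 1
  funext y
  unfold psh
  rw [← finsum_comp_equiv e1.toEquiv]
  refine finsum_congr fun x => ?_
  rfl

theorem wst_iso {G H : Type} [Group G] [Group H] [Finite G] [Finite H] (e : G ≃* H)
    {z : H → F} (hz : IsClassFun z) :
    wst red p (fun x => z (e x)) = wst red p z := by
  have hz' : IsClassFun (fun x => z (e x)) := by
    intro g x
    have := hz (e g) (e x)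
    simpa using this
  have h1 := card_mul_wst red p hz'
  have h2 := card_mul_wst red p hz
  have hG : Finite {Q : Subgroup G // IsPGroup p Q} := inferInstance
  have hH : Finite {Q : Subgroup H // IsPGroup p Q} := inferInstance
  have : Fintype {Q : Subgroup G // IsPGroup p Q} := Fintype.ofFinite _
  have : Fintype {Q : Subgroup H // IsPGroup p Q} := Fintype.ofFinite _
  let E : {Q : Subgroup G // IsPGroup p Q} ≃ {Q : Subgroup H // IsPGroup p Q} :=
    { toFun := fun Q => ⟨Q.1.map e.toMonoidHom, Q.2.map _⟩
      invFun := fun Q => ⟨Q.1.map e.symm.toMonoidHom, Q.2.map _⟩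
      left_inv := fun Q => by
        apply Subtype.ext
        change (Q.1.map e.toMonoidHom).map e.symm.toMonoidHom = Q.1
        rw [Subgroup.map_map]
        ext x
        simp [Subgroup.mem_map]
      right_inv := fun Q => by
        apply Subtype.ext
        change (Q.1.map e.symm.toMonoidHom).map e.toMonoidHom = Q.1
        rw [Subgroup.map_map]
        ext x
        simp [Subgroup.mem_map] }
  have h3 : ∑ᶠ Q : {Q : Subgroup G // IsPGroup p Q},
        Nat.card (Subgroup.normalizer (Q.1 : Set G)) * nws red p Q.1 (fun x => z (e x)) =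
      ∑ᶠ Q : {Q : Subgroup H // IsPGroup p Q},
        Nat.card (Subgroup.normalizer (Q.1 : Set H)) * nws red p Q.1 z := by
    rw [finsum_eq_sum_of_fintype, finsum_eq_sum_of_fintype]
    refine Fintype.sum_equiv E _ _ fun Q => ?_
    change _ = Nat.card (Subgroup.normalizer ((Q.1.map e.toMonoidHom : Subgroup H) : Set H)) *
      nws red p (Q.1.map e.toMonoidHom) z
    rw [nws_iso red e Q.1 hz]
    congr 1
    rw [← normalizer_map e Q.1]
    exact Nat.card_congr (e.subgroupMap (Subgroup.normalizer (Q.1 : Set G))).toEquiv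
  rw [h3, ← h2, Nat.card_congr e.toEquiv] at h1
  exact Nat.eq_of_mul_eq_mul_left Nat.card_pos h1

theorem eqw_iso {G H : Type} [Group G] [Group H] [Finite G] [Finite H] (e : G ≃* H)
    (h : Eqw p red H) : Eqw p red G := by
  intro B hB
  obtain ⟨z, hz, h1, h2⟩ := of_elem (p := p) red hB
  let w : H → F := fun x => z (e.symm x)
  have hw : IsClassFun w := by
    intro g x
    have := hz (e.symm g) (e.symm x)
    simpa [w] using this
  have hzw : z = fun x => w (e x) := by
    funext x
    simp [w]
  have h3 : lst w = wst red p w := El.eq red h ⟨w, hw, rfl, rfl⟩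
  have h4 : lst z = lst w := by rw [hzw]; exact lst_iso e w
  have h5 : wst red p z = wst red p w := by rw [hzw]; exact wst_iso red e hw
  rw [← h1, h4, h3, ← h5, h2]
  rfl

end

end Pool.Agent.Helper13.BW
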