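import Pool.Agent.Helper13.BW.Bd

/-!
# One sequence of groups for the blockwise weight conjecture
-/

set_option autoImplicit false

open scoped Classical

namespace Pool.Agent.Helper13.BW

open Pool.Agent.Q149.WB Pool.Agent.Q149.WC
open Pool.Agent.Y63.NV (IsClassFun IsBlock IsIrrTrace numIrrBlock numWtBlock Reduced IsWt centralValue)
open Pool.Agent.Y63.AWC (pSubgroupSetoid numRegularClasses)
open Pool.Agent.Y930.NV (Cf)
open Pool.Agent.Helper13.MG (FG)
open Pool.Agent.Results.MP_0c8ca5_al.AllScalesOrNone (numWeights)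

/-- The direct product of two finite groups. -/
def mulG (X Y : FG) : FG := ⟨X.G × Y.G⟩

/-- The direct product of `m + 1` copies of `X`. -/
def powG (X : FG) : ℕ → FG
  | 0 => X
  | m + 1 => mulG (powG X m) X

/-- The sequence `Γ_0 = G_0`, `Γ_{j+1} = Γ_j ^ (m_j + 1) × G_{j+1}` of finite groups. -/
def Gam (G : ℕ → FG) (m : ℕ → ℕ) : ℕ → FG
  | 0 => G 0
  | j + 1 => mulG (powG (Gam G m j) (m j)) (G (j + 1))

/-- The direct product of `n + 1` finite groups. -/
def piG : ∀ n : ℕ, (Fin (n + 1) → FG) → FG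
  | 0, G => G 0
  | n + 1, G => mulG (G 0) (piG n (fun i => G i.succ))

/-- `l(B) = w(B)` for all blocks `B` of `G`. -/
def Eqw (p : ℕ) {F : Type} [Field F] (red : integralClosure ℤ ℂ →+* F) (G : Type) [Group G] :
    Prop :=
  ∀ B : (G → F) → F, IsBlock B → numIrrBlock B = numWeights p red B

/-- `l(B)` and `w(B)` agree up to the factor `|G|^ε`, for all blocks `B` of `G`. -/
def NearB (p : ℕ) {F : Type} [Field F] (red : integralClosure ℤ ℂ →+* F) (ε : ℝ) (G : Type)
    [Group G] : Prop :=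
  ∀ B : (G → F) → F, IsBlock B →
    (numIrrBlock B : ℝ) ≤ (Nat.card G : ℝ) ^ ε * numWeights p red B ∧
    (numWeights p red B : ℝ) ≤ (Nat.card G : ℝ) ^ ε * numIrrBlock B

section

variable {p : ℕ} [hp : Fact p.Prime] {F : Type} [Field F] [IsAlgClosed F] [CharP F p]
  (red : integralClosure ℤ ℂ →+* F)

/-! ### central elements -/

/-- There is a central element `z` of `F[G]` which does not vanish on `x` simple modules and on `y`
classes of weights. -/
def El (p : ℕ) {F : Type} [Field F] (red : integralClosure ℤ ℂ →+* F) (G : Type) [Group G]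
    (x y : ℕ) : Prop := ∃ z : G → F, IsClassFun z ∧ lst z = x ∧ wst red p z = y

include hp in
theorem El.mul {X Y : FG} {x y x' y' : ℕ} (h : El p red X.G x y) (h' : El p red Y.G x' y') :
    El p red (mulG X Y).G (x * x') (y * y') := by
  obtain ⟨z, hz, h1, h2⟩ := h
  obtain ⟨w, hw, h3, h4⟩ := h'
  have i1 := Fintype.ofFinite X.G
  have i2 := Fintype.ofFinite Y.G
  refine ⟨epA z w, Cf_epA (m := z) (n := w) hz hw, ?_, ?_⟩
  · have := lst_prod (p := p) hz hw
    rw [h1, h3] at this
    exact this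
  · have := wst_prod (p := p) red hz hw
    rw [h2, h4] at this
    exact this

include hp in
theorem El.pow {X : FG} {x y : ℕ} (h : El p red X.G x y) (m : ℕ) :
    El p red (powG X m).G (x ^ (m + 1)) (y ^ (m + 1)) := by
  induction m with
  | zero =>
    rw [zero_add, pow_one, pow_one]
    exact h
  | succ m ih => exact ih.mul red h

/-- the numbers of the tower -/
def tow (m x : ℕ → ℕ) : ℕ → ℕ
  | 0 => x 0
  | j + 1 => tow m x j ^ (m j + 1) * x (j + 1)

include hp in
theorem El.gam {G : ℕ → FG} {x y : ℕ → ℕ} (h : ∀ i, El p red (G i).G (x i) (y i)) (m : ℕ → ℕ)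
    (j : ℕ) : El p red (Gam G m j).G (tow m x j) (tow m y j) := by
  induction j with
  | zero => exact h 0
  | succ j ih => exact (ih.pow red (m j)).mul red (h (j + 1))

include hp in
theorem El.pi : ∀ {n : ℕ} {G : Fin (n + 1) → FG} {x y : Fin (n + 1) → ℕ}
    (_ : ∀ i, El p red (G i).G (x i) (y i)), El p red (piG n G).G (∏ i, x i) (∏ i, y i)
  | 0, G, x, y, h => by
    have e1 : ∏ i, x i = x 0 := by simp
    have e2 : ∏ i, y i = y 0 := by simp
    rw [e1, e2]
    exact h 0
  | n + 1, G, x, y, h => by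
    have e1 := Fin.prod_univ_succ x
    have e2 := Fin.prod_univ_succ y
    rw [e1, e2]
    exact (h 0).mul red (El.pi (fun i => h i.succ))

include hp in
theorem El.le {G : Type} [Group G] [Finite G] {x y : ℕ} (h : El p red G x y) :
    x ≤ 4 ^ Nat.card G ∧ y ≤ 4 ^ Nat.card G := by
  obtain ⟨z, -, rfl, rfl⟩ := h
  exact ⟨lst_le (p := p) z, wst_le red z⟩

theorem El.of_block {G : Type} [Group G] [Finite G] {B : (G → F) → F} (hB : IsBlock B) :
    El p red G (numIrrBlock B) (numWeights p red B) := by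
  obtain ⟨z, hz, h1, h2⟩ := of_elem (p := p) red hB
  exact ⟨z, hz, h1, h2⟩

theorem trace_one (G : Type) [Group G] : IsIrrTrace (fun _ : G => (1 : F)) := by
  refine ⟨F, inferInstance, inferInstance, inferInstance, Representation.trivial F G F, ?_, ?_⟩
  · have key : ∀ U : Subrepresentation (Representation.trivial F G F), U = ⊥ ∨ U = ⊤ := by
      intro U
      rcases eq_bot_or_eq_top U.toSubmodule with h | h
      · left
        apply Subrepresentation.toSubmodule_injective
        rw [h]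
        rfl
      · right
        apply Subrepresentation.toSubmodule_injective
        rw [h]
        rfl
    have hne : (⊥ : Subrepresentation (Representation.trivial F G F)) ≠ ⊤ := by
      intro h
      have h1 := congrArg Subrepresentation.toSubmodule h
      have h2 : (⊥ : Submodule F F) = ⊤ := h1
      exact bot_ne_top h2
    exact { exists_pair_ne := ⟨⊥, ⊤, hne⟩, eq_bot_or_eq_top := key }
  · funext g
    simp [Representation.character]

theorem El.one (G : Type) [Group G] [Finite G] :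
    ∃ x y : ℕ, 0 < x ∧ El p red G x y := by
  let z : G → F := Pi.single 1 1
  have hz : IsClassFun z := by
    intro g x
    simp only [z, Pi.single_apply]
    congr 1
    rw [mul_inv_eq_one, mul_eq_left]
  refine ⟨lst z, wst red p z, ?_, z, hz, rfl, rfl⟩
  have hfin : Finite {φ : G → F // IsIrrTrace φ} := (Pool.Agent.Y914.NV.irr F G).1.to_subtype
  have hfin2 : Finite {φ : G → F // IsIrrTrace φ ∧ ∃ x, ∑ᶠ g : G, z g * φ (g * x) ≠ 0} := by
    refine Finite.of_injective (β := {φ : G → F // IsIrrTrace φ}) (fun φ => ⟨φ.1, φ.2.1⟩) ?_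
    intro φ ψ h
    exact Subtype.ext (congrArg (fun w : {φ : G → F // IsIrrTrace φ} => w.1) h)
  have : Nonempty {φ : G → F // IsIrrTrace φ ∧ ∃ x, ∑ᶠ g : G, z g * φ (g * x) ≠ 0} := by
    refine ⟨⟨fun _ => 1, trace_one G, 1, ?_⟩⟩
    rw [finsum_eq_single _ (1 : G)]
    · simp [z]
    · intro g hg
      simp [z, Pi.single_apply, hg]
  exact Nat.card_pos

/-- From blocks to central elements. -/
theorem El.near {G : Type} [Group G] [Finite G] {ε : ℝ} (h : NearB p red ε G) {x y : ℕ}
    (hxy : El p red G x y) : (x : ℝ) ≤ (Nat.card G : ℝ) ^ ε * y ∧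
      (y : ℝ) ≤ (Nat.card G : ℝ) ^ ε * x := by
  obtain ⟨z, hz, rfl, rfl⟩ := hxy
  exact ⟨to_elem red (fun B hB => (h B hB).1) z hz, to_elem' red (fun B hB => (h B hB).2) z hz⟩

theorem El.eq {G : Type} [Group G] [Finite G] (h : Eqw p red G) {x y : ℕ}
    (hxy : El p red G x y) : x = y := by
  obtain ⟨z, hz, rfl, rfl⟩ := hxy
  have h1 := to_elem (K := 1) red (fun B hB => by
    rw [one_mul]; exact_mod_cast (h B hB).le) z hz
  have h2 := to_elem' (K := 1) red (fun B hB => by
    rw [one_mul]; exact_mod_cast (h B hB).ge) z hz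
  rw [one_mul] at h1 h2
  exact le_antisymm (by exact_mod_cast h1) (by exact_mod_cast h2)

omit hp [IsAlgClosed F] [CharP F p] in
theorem near_of_eqw {ε : ℝ} (hε : 0 < ε) {G : Type} [Group G] [Finite G] (h : Eqw p red G) :
    NearB p red ε G := by
  intro B hB
  rw [h B hB]
  have h2 : (1 : ℝ) ≤ (Nat.card G : ℝ) ^ ε :=
    Real.one_le_rpow (by exact_mod_cast Nat.card_pos) hε.le
  have h3 : (0 : ℝ) ≤ (numWeights p red B : ℝ) := Nat.cast_nonneg _
  constructor <;> nlinarith

/-! ### the tower -/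

theorem card_powG (X : FG) (m : ℕ) : Nat.card (powG X m).G = Nat.card X.G ^ (m + 1) := by
  induction m with
  | zero => simp [powG]
  | succ m ih =>
    change Nat.card ((powG X m).G × X.G) = _
    rw [Nat.card_prod, ih]
    ring

theorem card_gam (G : ℕ → FG) (m : ℕ → ℕ) (j : ℕ) :
    Nat.card (Gam G m (j + 1)).G = Nat.card (Gam G m j).G ^ (m j + 1) *
      Nat.card (G (j + 1)).G := by
  change Nat.card ((powG (Gam G m j) (m j)).G × (G (j + 1)).G) = _
  rw [Nat.card_prod, card_powG]

include hp in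
theorem tower_gam {G : ℕ → FG} {m : ℕ → ℕ} (h2 : 2 ≤ Nat.card (G 0).G)
    (hm : ∀ j, 8 ^ (j + 1) * 4 ^ Nat.card (Gam G m j).G * 4 ^ Nat.card (G (j + 1)).G ≤ m j)
    {x y : ℕ → ℕ} (h : ∀ i, El p red (G i).G (x i) (y i)) :
    Tower (fun j => Nat.card (Gam G m j).G) (fun j => Nat.card (G j).G)
      (fun j => 4 ^ Nat.card (Gam G m j).G) (fun j => 4 ^ Nat.card (G j).G) m
      (tow m x) (tow m y) x y where
  n0 := rfl
  ns := card_gam G m
  n2 := h2
  a0 := rfl
  as := fun j => rfl
  b0 := rfl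
  bs := fun j => rfl
  hg := fun j => ⟨Nat.card_pos, le_four _⟩
  hx := fun j => ((h j).le red).1
  hy := fun j => ((h j).le red).2
  ha := fun j => ((El.gam red h m j).le red).1
  hb := fun j => ((El.gam red h m j).le red).2
  hu := fun j => by
    have h1 : 1 ≤ Nat.card (Gam G m j).G := Nat.card_pos
    calc 2 ≤ 4 ^ 1 := by norm_num
      _ ≤ 4 ^ Nat.card (Gam G m j).G := Nat.pow_le_pow_right (by norm_num) h1
  hm := hm

/-- One sequence of groups decides for the factors. -/
theorem one_seq {G : ℕ → FG} {m : ℕ → ℕ} (h2 : 2 ≤ Nat.card (G 0).G)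
    (hm : ∀ j, 8 ^ (j + 1) * 4 ^ Nat.card (Gam G m j).G * 4 ^ Nat.card (G (j + 1)).G ≤ m j)
    (h : ∀ ε : ℝ, 0 < ε → ∀ i : ℕ, ∃ j, i ≤ j ∧ NearB p red ε (Gam G m j).G) (i : ℕ) :
    Eqw p red (G i).G := by
  -- the unit elements
  choose x₁ y₁ hx₁ h₁ using fun i => El.one (p := p) red (G i).G
  have near : ∀ x y : ℕ → ℕ, (∀ i, El p red (G i).G (x i) (y i)) →
      NearI (fun j => Nat.card (Gam G m j).G) (tow m x) (tow m y) := by
    intro x y hxy ε hε i
    obtain ⟨j, hj, hN⟩ := h ε hε i
    exact ⟨j, hj, El.near red hN (El.gam red hxy m j)⟩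
  have hy₁ : ∀ i, 0 < y₁ i := (tower_gam red h2 hm h₁).y_pos hx₁ (near _ _ h₁)
  intro B hB
  have hE := El.of_block red hB
  set l := numIrrBlock B with hl
  set w := numWeights p red B with hw
  let x : ℕ → ℕ := fun k => if k = i then l else x₁ k
  let y : ℕ → ℕ := fun k => if k = i then w else y₁ k
  have hxy : ∀ k, El p red (G k).G (x k) (y k) := by
    intro k
    by_cases hk : k = i
    · subst hk
      simpa [x, y] using hE
    · simpa [x, y, hk] using h₁ k
  have hT := tower_gam red h2 hm hxy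
  have hN := near _ _ hxy
  have xi : x i = l := by simp [x]
  have yi : y i = w := by simp [y]
  rcases Nat.eq_zero_or_pos l with hl0 | hl0
  · rcases Nat.eq_zero_or_pos w with hw0 | hw0
    · rw [hl0, hw0]
    · exfalso
      have hy : ∀ k, 0 < y k := by
        intro k
        by_cases hk : k = i
        · rw [hk, yi]; exact hw0
        · simpa [y, hk] using hy₁ k
      have := hT.x_pos hy hN i
      rw [xi] at this
      omega
  · have hx : ∀ k, 0 < x k := by
      intro k
      by_cases hk : k = i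
      · rw [hk, xi]; exact hl0
      · simpa [x, hk] using hx₁ k
    have hy : ∀ k, 0 < y k := hT.y_pos hx hN
    have := hT.main hx hy hN i
    rwa [xi, yi] at this

/-! ### shifts -/

/-- The tower starting at `Γ_k`. -/
def shiftG (G : ℕ → FG) (m : ℕ → ℕ) (k : ℕ) : ℕ → FG
  | 0 => Gam G m k
  | j + 1 => G (k + (j + 1))

theorem gam_shift (G : ℕ → FG) (m : ℕ → ℕ) (k j : ℕ) :
    Gam (shiftG G m k) (fun i => m (k + i)) j = Gam G m (k + j) := by
  induction j with
  | zero => rfl
  | succ j ih =>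
    change mulG (powG (Gam (shiftG G m k) (fun i => m (k + i)) j) (m (k + j))) (G (k + (j + 1))) =
      mulG (powG (Gam G m (k + j)) (m (k + j))) (G (k + j + 1))
    rw [ih]
    rfl

theorem card_ge (G : ℕ → FG) (m : ℕ → ℕ) (h2 : 2 ≤ Nat.card (G 0).G) (j : ℕ) :
    2 ≤ Nat.card (Gam G m j).G := by
  induction j with
  | zero => exact h2
  | succ j ih =>
    rw [card_gam]
    calc 2 ≤ Nat.card (Gam G m j).G := ih
      _ = Nat.card (Gam G m j).G ^ 1 * 1 := by ring
      _ ≤ Nat.card (Gam G m j).G ^ (m j + 1) * Nat.card (G (j + 1)).G :=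
        Nat.mul_le_mul (Nat.pow_le_pow_right (by omega) (by omega)) Nat.card_pos

/-- One sequence of groups decides for its own members. -/
theorem one_seq_self {G : ℕ → FG} {m : ℕ → ℕ} (h2 : 2 ≤ Nat.card (G 0).G)
    (hm : ∀ j, 8 ^ (j + 1) * 4 ^ Nat.card (Gam G m j).G * 4 ^ Nat.card (G (j + 1)).G ≤ m j)
    (h : ∀ ε : ℝ, 0 < ε → ∀ i : ℕ, ∃ j, i ≤ j ∧ NearB p red ε (Gam G m j).G) (k : ℕ) :
    Eqw p red (Gam G m k).G := by
  have := one_seq (G := shiftG G m k) (m := fun i => m (k + i)) red (card_ge G m h2 k) ?_ ?_ 0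
  · exact this
  · intro j
    rw [gam_shift]
    refine le_trans ?_ (hm (k + j))
    have e1 : (8 : ℕ) ^ (j + 1) ≤ 8 ^ (k + j + 1) := Nat.pow_le_pow_right (by norm_num) (by omega)
    exact Nat.mul_le_mul_right _ (Nat.mul_le_mul_right _ e1)
  · intro ε hε i
    obtain ⟨j, hj, hN⟩ := h ε hε (k + i)
    obtain ⟨d, rfl⟩ := Nat.exists_eq_add_of_le hj
    refine ⟨i + d, by omega, ?_⟩
    rw [gam_shift]
    have e : k + (i + d) = k + i + d := by ring
    rw [e]
    exact hN

end

end Pool.Agent.Helper13.BW
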